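import Mathlib
import Pool.Agent.Helper35.WeaveDefs
import Pool.Agent.Helper35.WeavePos

set_option autoImplicit false

namespace Pool.Agent.Results.MP_560143_co.MinimalWeavings

open Pool.Agent.Helper35.Weave

/-- For every `n ≥ 4` the weaving on the lines `y = i x + i ^ 2` (`0 ≤ i < n`) in which line `i` is
above line `j` exactly when either `i < j` and `{i, j}` is a boundary pair, or `j < i` and `{i, j}`
is not a boundary pair, is not weakly realizable, while deleting any one line leaves a realizable
weaving. -/
theorem result (n : ℕ) (hn : 4 ≤ n) :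
    ∃ W : Weaving (Fin n),
      (∀ i : Fin n, W.line i = {q | q.2 = (i.val : ℝ) * q.1 + (i.val : ℝ) ^ 2}) ∧
      (∀ i j : Fin n, W.above i j ↔ Up n i j) ∧
      ¬ W.WeaklyRealizable ∧ ∀ i : Fin n, (W.delete i).Realizable :=
  minimal_weaving n hn

end Pool.Agent.Results.MP_560143_co.MinimalWeavings
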